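import Mathlib
import Pool.Agent.N735.IT.Fin

/-!
# One of the first 106 iterated equations, for every triple, with exact patterns

Iterating `q ↦ (b q + c) / a` leads from `a p - b q = c` to the equations
`a^j p - b^j q = c (a^(j-1) + a^(j-2) b + ... + b^(j-1))`, and all of them satisfy the hypotheses of the
question when the first one does. For EVERY triple `(a, b, c)` of the question at least one of the first
106 of these equations has infinitely many solutions in primes, and one of the first 44 if every odd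
prime `≤ 43` which divides `a - b` divides `c`. This is the case for `c = d (b - a)`, when the equation
with the number `j` says that `(b / a)^j = (p + d) / (q + d)`. More precisely there is a nonempty set `T`
of exponents `j ≤ 106` such that for every `R` there are, for arbitrarily large `x`, at least
`x / (log x)^B` primes `q ≤ x` for which the `j`-th equation, `j ≤ R`, has a prime solution `p` exactly if
`j` is in `T`. In place of `{0, ..., 106}` one can take any set of 45 exponents which misses a class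
modulo each of the odd primes `≤ 43` which divide `a - b` and not `c`.

The trace form of the Maynard-Tao theorem for 45 forms (`Pool.Agent.Y876.FF`) and the proof for the maps
`x ↦ a + d x` (`Pool.Agent.R493.EX`) are from the starting files.
-/

set_option autoImplicit false

namespace Pool.Agent.Results.MP_bf63dc_nt.ExactIterates

open Finset Filter

/-- the hypotheses of the question -/
def Adm (a b : ℕ) (c : ℤ) : Prop :=
  1 ≤ a ∧ 1 ≤ b ∧ c ≠ 0 ∧ IsCoprime (a : ℤ) b ∧ IsCoprime (a : ℤ) c ∧ IsCoprime (b : ℤ) c ∧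
    ¬ (Odd a ∧ Odd b ∧ Odd c)

/-- the right-hand side of the `j`-th iterated equation -/
def rhs (a b : ℕ) (c : ℤ) (j : ℕ) : ℤ := c * ∑ i ∈ range j, (a : ℤ) ^ i * (b : ℤ) ^ (j - 1 - i)

/-- the primes `q ≤ x` such that for `1 ≤ j ≤ R` the `j`-th iterated equation
`a^j p - b^j q = rhs a b c j` has a solution in primes `p` if and only if `j ∈ T`, while
`a^j q - b^j q' = rhs a b c j` is not solvable in primes `q'` -/
def Exactly (a b : ℕ) (c : ℤ) (T : Finset ℕ) (R : ℕ) (x : ℝ) : Set ℕ :=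
  {q : ℕ | (q : ℝ) ≤ x ∧ q.Prime ∧
    (∀ j : ℕ, 1 ≤ j → j ≤ R →
      ((∃ p : ℕ, p.Prime ∧ (a : ℤ) ^ j * p - (b : ℤ) ^ j * q = rhs a b c j) ↔ j ∈ T)) ∧
    ∀ j : ℕ, 1 ≤ j → j ≤ R → ∀ q' : ℕ, q'.Prime → (a : ℤ) ^ j * q - (b : ℤ) ^ j * q' ≠ rhs a b c j}

/-- at all large scales some pattern `T` with the property `P` occurs for many primes `q`, and one
pattern with the property `P` occurs at arbitrarily large scales for all `R` -/
def Patterns (B : ℕ) (a b : ℕ) (c : ℤ) (P : Finset ℕ → Prop) : Prop :=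
  (∀ R : ℕ, ∀ᶠ x : ℝ in atTop, ∃ T : Finset ℕ, T.Nonempty ∧ P T ∧
    x / Real.log x ^ B ≤ ((Exactly a b c T R x).ncard : ℝ)) ∧
  ∃ T : Finset ℕ, T.Nonempty ∧ P T ∧
    ∀ R : ℕ, ∃ᶠ x : ℝ in atTop, x / Real.log x ^ B ≤ ((Exactly a b c T R x).ncard : ℝ)

open Classical in
/-- `44` if every odd prime `≤ 43` which divides `a - b` divides `c`, otherwise `106` -/
noncomputable def bound (a b : ℕ) (c : ℤ) : ℕ :=
  if ∀ l : ℕ, l.Prime → 3 ≤ l → l ≤ 43 → (l : ℤ) ∣ (a : ℤ) - b → (l : ℤ) ∣ c then 44 else 106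

theorem adm_int {a b : ℕ} {c : ℤ} (h : Adm a b c) : Pool.Agent.N735.IT.Adm (a : ℤ) (b : ℤ) c := by
  obtain ⟨ha, hb, hc, hab, hac, hbc, hpar⟩ := h
  refine ⟨by exact_mod_cast ha, by exact_mod_cast hb, hc, hab, hac, hbc, ?_⟩
  rintro ⟨h1, h2, h3⟩
  exact hpar ⟨by exact_mod_cast h1, by exact_mod_cast h2, h3⟩

theorem adm_iter {a b : ℕ} {c : ℤ} (h : Adm a b c) {j : ℕ} (hj : 1 ≤ j) :
    Adm (a ^ j) (b ^ j) (rhs a b c j) := by
  obtain ⟨ha, hb, hc, hab, hac, hbc, hpar⟩ := h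
  have ha' : (1 : ℤ) ≤ a := by exact_mod_cast ha
  have hb' : (1 : ℤ) ≤ b := by exact_mod_cast hb
  obtain ⟨h1, h2⟩ := Pool.Agent.N735.IT.cj_coprime hab hac hbc hj
  refine ⟨Nat.one_le_pow _ _ ha, Nat.one_le_pow _ _ hb,
    Pool.Agent.N735.IT.cj_pos a b c ha' hb' hc hj, ?_, ?_, ?_, ?_⟩
  · push_cast
    exact hab.pow
  · push_cast
    exact h1
  · push_cast
    exact h2
  · rintro ⟨h3, h4, h5⟩
    refine Pool.Agent.N735.IT.cj_parity (a := (a : ℤ)) (b := (b : ℤ)) (c := c) ?_ hj ⟨?_, ?_, h5⟩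
    · rintro ⟨h6, h7, h8⟩
      exact hpar ⟨by exact_mod_cast h6, by exact_mod_cast h7, h8⟩
    · exact_mod_cast h3
    · exact_mod_cast h4

theorem exactly_eq (a b : ℕ) (c : ℤ) (T : Finset ℕ) (R : ℕ) (x : ℝ) :
    (Exactly a b c T R x).ncard = Pool.Agent.N735.IT.cnt (a : ℤ) (b : ℤ) c 0 T R x := by
  unfold Pool.Agent.N735.IT.cnt
  congr 1
  ext q
  unfold Exactly Pool.Agent.N735.IT.PS rhs Pool.Agent.N735.IT.cj
  simp only [Set.mem_ofPred_eq, mem_Icc, zero_add, and_imp]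

theorem of_exponents {a b : ℕ} {c : ℤ} (h : Adm a b c) (E : Finset ℕ) (hE : E.card = 45)
    (hcls : ∀ l : ℕ, l.Prime → 3 ≤ l → l ≤ 43 → (l : ℤ) ∣ (a : ℤ) - b → ¬ (l : ℤ) ∣ c →
      ∃ r : ℕ, ∀ e ∈ E, ¬ e ≡ r [MOD l]) :
    Patterns (Pool.Agent.N735.IT.B45 + 1) a b c
      (fun T => ∃ t ∈ E, ∀ j ∈ T, 1 ≤ j ∧ t + j ∈ E) := by
  obtain ⟨h1, T, hT1, hT2, hT3⟩ := Pool.Agent.N735.IT.patterns (adm_int h) E hE hcls
  refine ⟨fun R => ?_, T, hT1, hT2, fun R => ?_⟩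
  · filter_upwards [h1 R] with x hx
    obtain ⟨T, h3, h4, h5⟩ := hx
    exact ⟨T, h3, h4, by rw [exactly_eq]; exact h5⟩
  · refine (hT3 R).mono fun x hx => ?_
    rw [exactly_eq]
    exact hx

theorem patterns_mono {B a b : ℕ} {c : ℤ} {P Q : Finset ℕ → Prop} (hPQ : ∀ T, P T → Q T)
    (h : Patterns B a b c P) : Patterns B a b c Q := by
  obtain ⟨h1, T, hT1, hT2, hT3⟩ := h
  refine ⟨fun R => ?_, T, hT1, hPQ T hT2, hT3⟩
  filter_upwards [h1 R] with x hx
  obtain ⟨T, h3, h4, h5⟩ := hx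
  exact ⟨T, h3, hPQ T h4, h5⟩

theorem result : ∃ B : ℕ, ∀ (a b : ℕ) (c : ℤ), Adm a b c →
    (∀ j : ℕ, 1 ≤ j → Adm (a ^ j) (b ^ j) (rhs a b c j)) ∧
    Patterns B a b c (fun T => ∀ j ∈ T, 1 ≤ j ∧ j ≤ bound a b c) ∧
    (∀ E : Finset ℕ, E.card = 45 →
      (∀ l : ℕ, l.Prime → 3 ≤ l → l ≤ 43 → (l : ℤ) ∣ (a : ℤ) - b → ¬ (l : ℤ) ∣ c →
        ∃ r : ℕ, ∀ e ∈ E, ¬ e ≡ r [MOD l]) →
      Patterns B a b c (fun T => ∃ t ∈ E, ∀ j ∈ T, 1 ≤ j ∧ t + j ∈ E)) ∧
    ∀ d : ℤ, c = d * ((b : ℤ) - a) → bound a b c = 44 ∧ ∀ (j : ℕ) (p q : ℤ),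
      (a : ℤ) ^ j * p - (b : ℤ) ^ j * q = rhs a b c j ↔
        (a : ℤ) ^ j * (p + d) = (b : ℤ) ^ j * (q + d) := by
  refine ⟨Pool.Agent.N735.IT.B45 + 1, fun a b c h => ⟨fun j hj => adm_iter h hj, ?_,
    fun E hE hcls => of_exponents h E hE hcls, ?_⟩⟩
  · by_cases hb : ∀ l : ℕ, l.Prime → 3 ≤ l → l ≤ 43 → (l : ℤ) ∣ (a : ℤ) - b → (l : ℤ) ∣ c
    · have e1 : bound a b c = 44 := by unfold bound; exact if_pos hb
      rw [e1]
      refine patterns_mono ?_ (of_exponents h (range 45) (card_range 45)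
        (fun l hl h3 h43 hd hc => absurd (hb l hl h3 h43 hd) hc))
      rintro T ⟨t, _, ht⟩ j hj
      obtain ⟨h1, h2⟩ := ht j hj
      rw [mem_range] at h2
      exact ⟨h1, by omega⟩
    · have e1 : bound a b c = 106 := by unfold bound; exact if_neg hb
      rw [e1]
      refine patterns_mono ?_ (of_exponents h Pool.Agent.N735.IT.E45 Pool.Agent.N735.IT.E45_card
        (fun l hl h3 h43 _ _ => Pool.Agent.N735.IT.E45_cls l hl h3 h43))
      rintro T ⟨t, _, ht⟩ j hj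
      obtain ⟨h1, h2⟩ := ht j hj
      have h3 := Pool.Agent.N735.IT.E45_le _ h2
      exact ⟨h1, by omega⟩
  · rintro d rfl
    constructor
    · unfold bound
      rw [if_pos]
      intro l _ _ _ h1
      have h2 : (l : ℤ) ∣ (b : ℤ) - a := by
        have h3 := (dvd_neg (a := (l : ℤ))).2 h1
        rwa [neg_sub] at h3
      exact Dvd.dvd.mul_left h2 _
    · intro j p q
      exact Pool.Agent.N735.IT.eq_iff (a : ℤ) (b : ℤ) d j p q

end Pool.Agent.Results.MP_bf63dc_nt.ExactIterates
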