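import Mathlib
import Pool.Agent.N679.RG.All3

/-!
# The equation `a p - b q = c` in primes: the right order of magnitude for 5 / 9 of the admissible `c` in every window
of length `λ log x`, or almost all multiples of a bounded number are differences of primes

Let `a ≠ b` be coprime positive integers. For every `ε > 0` there are `Q` and `c₀ > 0` such that for every `λ > 0`
there is a `κ > 0`: for all large `x` and all `T`, `λ log x ≤ T ≤ x / 1000`, at least one of the following two
statements holds.

* In EVERY interval `(u, u + T]`, `|u| ≤ x`, at least the proportion `5 / 9 - ε` of the integers `c` satisfying the local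
  condition (`a`, `b`, `c` pairwise coprime and not all odd) is such that `a p - b q = c` has at least `κ x / log² x`
  solutions in primes `p`, `q` with `q ≤ 100 a x`.
* For some `m ≤ Q` and some `X` with `c₀ T ≤ X ≤ T` all but at most the proportion `ε` of the multiples `h ≤ X` of `m`
  are differences of primes with the right order of magnitude: at least `κ x / log² x` primes `p ≤ 100 (a + b) x` with
  `p + h` prime.
-/

set_option autoImplicit false

namespace Pool.Agent.Results.MP_bf63dc_nt.FiveNinthsRightOrder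

open Finset Filter

/-- for coprime `a`, `b` this is the condition of the question: `a`, `b`, `c` are pairwise coprime and not all odd -/
def Admissible (a b : ℕ) (c : ℤ) : Prop :=
  IsCoprime c (a : ℤ) ∧ IsCoprime c (b : ℤ) ∧ Even ((a : ℤ) * b * c)

open Classical in
/-- the number of the primes `q ≤ x` for which there is a prime `p` with `a p - b q = c` -/
noncomputable def solutions (a b : ℕ) (c : ℤ) (x : ℕ) : ℕ :=
  ((Icc 1 x).filter (fun q : ℕ => q.Prime ∧ ∃ p : ℕ, p.Prime ∧ (a : ℤ) * p - b * q = c)).card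

/-- the number of the primes `p ≤ x` with `p + h` prime -/
def primePairs (h x : ℕ) : ℕ := ((Icc 1 x).filter (fun p => p.Prime ∧ (p + h).Prime)).card

open Classical in
theorem result : ∀ a b : ℕ, 1 ≤ a → 1 ≤ b → Nat.Coprime a b → a ≠ b →
    ∀ ε : ℝ, 0 < ε → ∃ (Q : ℕ) (c₀ : ℝ), 0 < c₀ ∧ ∀ lam : ℝ, 0 < lam →
    ∃ κ : ℝ, 0 < κ ∧ ∀ᶠ x : ℕ in atTop, ∀ T : ℕ, lam * Real.log x ≤ T → 1000 * T ≤ x →
      (∀ u : ℤ, |u| ≤ x →
        (5 / 9 - ε) * (((Ioc u (u + T)).filter (fun c : ℤ => Admissible a b c)).card : ℝ) ≤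
          (((Ioc u (u + T)).filter (fun c : ℤ => Admissible a b c ∧
            κ * (x / (Real.log x) ^ 2) ≤ (solutions a b c (100 * a * x) : ℝ))).card : ℝ)) ∨
      ∃ m X : ℕ, 1 ≤ m ∧ m ≤ Q ∧ c₀ * T ≤ (X : ℝ) ∧ X ≤ T ∧
        (((Icc 1 X).filter (fun h => m ∣ h ∧
          (primePairs h (100 * (a + b) * x) : ℝ) < κ * (x / (Real.log x) ^ 2))).card : ℝ) ≤ ε * (X / m) := by
  intro a b ha hb hab hne ε hε
  obtain ⟨Q, c₀, hc₀, H⟩ := Pool.Agent.N679.RG.fin3 a b ha hb hab hne ε hε
  refine ⟨Q, c₀, hc₀, fun lam hlam => ?_⟩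
  obtain ⟨κ, hκ, H⟩ := H lam hlam
  refine ⟨κ, hκ, ?_⟩
  filter_upwards [H] with x hx T hT1 hT2
  rcases hx T hT1 hT2 with h | h
  · left
    intro u hu
    have h1 := h u hu
    have h2 := Finset.card_filter_add_card_filter_not
      (s := (Ioc u (u + T)).filter (fun c : ℤ => Admissible a b c))
      (fun c : ℤ => κ * (x / (Real.log x) ^ 2) ≤ (solutions a b c (100 * a * x) : ℝ))
    rw [Finset.filter_filter, Finset.filter_filter] at h2
    have h3 : ((Ioc u (u + T)).filter (fun c : ℤ => Pool.Agent.N679.RG.Adl a b c ∧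
        (Pool.Agent.N679.RG.sols a b c (100 * a * x) : ℝ) < κ * (x / (Real.log x) ^ 2))) =
        ((Ioc u (u + T)).filter (fun c : ℤ => Admissible a b c ∧
          ¬ κ * (x / (Real.log x) ^ 2) ≤ (solutions a b c (100 * a * x) : ℝ))) := by
      ext c
      rw [Finset.mem_filter, Finset.mem_filter, not_le]
      rfl
    have h4 : ((Ioc u (u + T)).filter (fun c : ℤ => Pool.Agent.N679.RG.Adl a b c)) =
        ((Ioc u (u + T)).filter (fun c : ℤ => Admissible a b c)) := by
      ext c
      rw [Finset.mem_filter, Finset.mem_filter]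
      rfl
    rw [h3, h4] at h1
    have h5 : (((Ioc u (u + T)).filter (fun c : ℤ => Admissible a b c ∧
        κ * (x / (Real.log x) ^ 2) ≤ (solutions a b c (100 * a * x) : ℝ))).card : ℝ) +
        (((Ioc u (u + T)).filter (fun c : ℤ => Admissible a b c ∧
          ¬ κ * (x / (Real.log x) ^ 2) ≤ (solutions a b c (100 * a * x) : ℝ))).card : ℝ) =
        (((Ioc u (u + T)).filter (fun c : ℤ => Admissible a b c)).card : ℝ) := by exact_mod_cast h2
    linarith
  · right
    exact h

end Pool.Agent.Results.MP_bf63dc_nt.FiveNinthsRightOrder
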