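import Pool.Agent.N688.GB.Final

/-!
# Ratios of shifted primes in Bohr neighbourhoods of groups of rational numbers
-/

set_option autoImplicit false

namespace Pool.Agent.Results.MP_bf63dc_nt.MultiplicativeBohrSets

/-- the set `N` has upper Banach density zero in the group `Γ`: for every `ε > 0` there are finitely many
elements of `Γ` of which at most the proportion `ε` is in `N` after any translation -/
def Negligible {Γ : Type} [CommGroup Γ] (N : Set Γ) : Prop :=
  ∀ ε : ℝ, 0 < ε → ∃ n : ℕ, 0 < n ∧ ∃ f : Fin n → Γ, ∀ g : Γ,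
    ({i : Fin n | g * f i ∈ N}.ncard : ℝ) ≤ ε * n

/-- the set `W` has upper Banach density at least `c` in the group `Γ ^ k`: of any finitely many elements of
`Γ ^ k` at least the proportion `c` is in `W` after a suitable translation -/
def Rich {Γ : Type} [CommGroup Γ] {k : ℕ} (W : Set (Fin k → Γ)) (c : ℝ) : Prop :=
  ∀ n : ℕ, 0 < n → ∀ f : Fin n → Fin k → Γ, ∃ g : Fin k → Γ,
    c * n ≤ ({i : Fin n | g * f i ∈ W}.ncard : ℝ)

/-- the Bohr neighbourhood of the identity of `Γ` given by the characters in `Θ` and the radius `ρ` -/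
def Bohr {Γ : Type} [CommGroup Γ] (Θ : Finset (Γ →* Circle)) (ρ : ℝ) : Set Γ :=
  {r | ∀ χ ∈ Θ, ‖((χ r : Circle) : ℂ) - 1‖ < ρ}

/-- for every `η > 0` there are arbitrarily large `x` with at least `x ^ (1 - η)` elements of `S` up
to `x` -/
def Often (S : Set ℕ) : Prop :=
  ∀ η : ℝ, 0 < η → ∀ x₀ : ℝ, ∃ x : ℝ, x₀ ≤ x ∧
    x ^ (1 - η) ≤ ({n : ℕ | n ∈ S ∧ (n : ℝ) ≤ x}.ncard : ℝ)

/-- the primes `q` congruent to `a` modulo `m` such that there are primes `p j` congruent to `a` modulo `m`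
with `v * p j + u = z j * (v * q + u)` -/
def Shifted {n : ℕ} (u : ℤ) (v m a : ℕ) (z : Fin n → ℚ) : Set ℕ :=
  {q | (q.Prime ∧ q ≡ a [MOD m]) ∧ ∃ p : Fin n → ℕ, (∀ j, (p j).Prime ∧ p j ≡ a [MOD m]) ∧
    ∀ j, (v : ℚ) * p j + u = z j * (v * q + u)}

/-- the vector `(1, r, g 0, g 1, …)` -/
def Points {Γ : Type} [CommGroup Γ] {k : ℕ} (r : Γ) (g : Fin k → Γ) : Fin (k + 2) → Γ :=
  Fin.cons 1 (Fin.cons r g : Fin (k + 1) → Γ)

/-- Let `u` be an integer, `v, m` positive, `a` coprime to `m`, and let `Γ` be any group of positive rational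
numbers whose numerators and denominators are coprime to `u * v * m`. Let `A` be an arbitrary subset of `Γ`.
There are `c > 0` and a Bohr neighbourhood of `1` in `Γ`, of which finitely many translates cover `Γ`, such that
for all `r ≠ 1` in `A` and in it, up to a set of Banach density zero, there are many primes `p, q`, congruent to
`a` modulo `m`, with `v * p + u = r * (v * q + u)`; and moreover the vectors `g` in `Γ ^ k` such that this holds
simultaneously for many vectors of primes with the ratios `(1, r, g 0, g 1, …)` of the numbers `v * p + u`, where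
all the ratios of these numbers, the later to the earlier, are in `A`, have upper Banach density at least
`c`. -/
theorem result (u : ℤ) (v m a : ℕ) (hv : 0 < v) (hm : 0 < m) (ha : a.Coprime m)
    (Γ : Subgroup ℚˣ) (hpos : ∀ r ∈ Γ, 0 < ((r : ℚˣ) : ℚ))
    (hcop : ∀ r ∈ Γ, IsCoprime (((r : ℚˣ) : ℚ).num * ((r : ℚˣ) : ℚ).den) (u * (v * m)))
    (A : Set Γ) (k : ℕ) :
    ∃ c : ℝ, 0 < c ∧ ∃ (Θ : Finset (Γ →* Circle)) (ρ : ℝ), 0 < ρ ∧
      (∃ F : Finset Γ, ∀ g : Γ, ∃ f ∈ F, g * f ∈ Bohr Θ ρ) ∧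
      ∃ N : Set Γ, Negligible N ∧ ∀ r ∈ A, r ∈ Bohr Θ ρ → r ∉ N → r ≠ 1 →
        Rich {g : Fin k → Γ | (∀ i j, i < j → Points r g j / Points r g i ∈ A) ∧
          Often (Shifted u v m a fun j => (((Points r g j : Γ) : ℚˣ) : ℚ))} c := by
  obtain ⟨c, hc, Θ, ρ, hρ, N, hN, h⟩ :=
    Pool.Agent.N688.GB.main u v m a hv hm ha Γ hpos hcop A k
  refine ⟨c, hc, Θ, ρ, hρ, Pool.Agent.N688.GB.syndetic Θ hρ, N, hN, fun r h1 h2 h3 h4 => ?_⟩
  have h5 := h r h1 h2 h3 h4
  have e : {g : Fin k → Γ | ∃ z : Fin (k + 2) → Γ, z = Fin.cons 1 (Fin.cons r g : Fin (k + 1) → Γ) ∧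
      (∀ i j, i < j → z j / z i ∈ A) ∧
      Pool.Agent.N688.GB.Often (Pool.Agent.N688.GB.Shifted u v m a fun j =>
        (((z j : Γ) : ℚˣ) : ℚ))} =
      {g : Fin k → Γ | (∀ i j, i < j → Points r g j / Points r g i ∈ A) ∧
          Often (Shifted u v m a fun j => (((Points r g j : Γ) : ℚˣ) : ℚ))} := by
    ext g
    constructor
    · rintro ⟨z, rfl, h6, h7⟩
      exact ⟨h6, h7⟩
    · rintro ⟨h6, h7⟩
      exact ⟨_, rfl, h6, h7⟩
  rw [e] at h5
  exact h5

end Pool.Agent.Results.MP_bf63dc_nt.MultiplicativeBohrSets
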