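import Mathlib
import Pool.Agent.N735.RT.Dens

/-!
# Forty-four dilates of the ratios `(p + d) / (q + d)` cover the positive rationals

For a nonzero integer `d` and a rational `r = b / a > 0`, `r ≠ 1`, in lowest terms, with `a` and `b`
prime to `d`, the equation `a p - b q = d (b - a)` says that `r = (p + d) / (q + d)`. It satisfies the
hypotheses of the question, so `r` should be of this form for infinitely many pairs of primes. Call `r`
good if this is so (with at least `x / (log x)^B` primes `q ≤ x`, for arbitrarily large `x`). We show: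
every set `S` of rationals contains at most 44 elements such that every other element of `S` has a good
ratio with one of them. In particular there are at most 44 positive integers `m` such that for every
rational `r` one of the numbers `m r` is good or `1`, and for all `a` the proportion of the integers `b`
such that `b / a` is good is at least `κ` at every scale `Y ≥ Y₀`, where `κ` and `Y₀` depend on `d` only
(also for `a = 1`: a positive proportion of the positive integers `b` satisfies `p + 1 = b (q + 1)`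
infinitely often).

The trace form of the Maynard-Tao theorem for 45 forms (`Pool.Agent.Y876.FF`) is from the starting files.
-/

set_option autoImplicit false

namespace Pool.Agent.Results.MP_bf63dc_nt.ShiftedPrimeRatios

open Finset Filter

/-- the hypotheses and the conclusion of the question for `(a, b, c)`; moreover, for arbitrarily large
`x` there are at least `x / (log x) ^ B` primes `q ≤ x` such that `a p - b q = c` with `p` prime -/
def Good (B a b : ℕ) (c : ℤ) : Prop :=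
  (1 ≤ a ∧ 1 ≤ b ∧ c ≠ 0 ∧ IsCoprime (a : ℤ) b ∧ IsCoprime (a : ℤ) c ∧ IsCoprime (b : ℤ) c ∧
    ¬ (Odd a ∧ Odd b ∧ Odd c)) ∧
  {pq : ℕ × ℕ | pq.1.Prime ∧ pq.2.Prime ∧ (a : ℤ) * pq.1 - b * pq.2 = c}.Infinite ∧
  ∃ᶠ x : ℝ in atTop, x / Real.log x ^ B ≤
    ({q : ℕ | (q.Prime ∧ ∃ p : ℕ, p.Prime ∧ (a : ℤ) * p - b * q = c) ∧ (q : ℝ) ≤ x}.ncard : ℝ)

/-- the ratio `r` is good: with `r = b / a` in lowest terms, `a p - b q = d (b - a)` is good, that is,
`r = (p + d) / (q + d)` -/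
def GoodRatio (B : ℕ) (d : ℤ) (r : ℚ) : Prop :=
  0 < r ∧ Good B r.den r.num.toNat (d * (r.num - r.den)) ∧
    ∀ p q : ℕ, ((r.den : ℤ) * p - r.num.toNat * q = d * (r.num - r.den) ↔
      (p : ℚ) + d = r * ((q : ℚ) + d))

/-- the positive rationals whose numerator and denominator are prime to `d` -/
def PrimeTo (d : ℤ) (r : ℚ) : Prop := 0 < r ∧ IsCoprime r.num d ∧ IsCoprime (r.den : ℤ) d

theorem eq_iff {r : ℚ} (hr : 0 < r) (d : ℤ) (p q : ℕ) :
    (r.den : ℤ) * p - r.num.toNat * q = d * (r.num - r.den) ↔ (p : ℚ) + d = r * ((q : ℚ) + d) := by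
  have hn : 0 < r.num := Rat.num_pos.2 hr
  have hn' : (r.num.toNat : ℤ) = r.num := Int.toNat_of_nonneg hn.le
  have h3 : (r.den : ℚ) ≠ 0 := by exact_mod_cast r.den_pos.ne'
  have e1 : r * r.den = r.num := Rat.mul_den_eq_num r
  rw [hn']
  constructor
  · intro h
    have h1 : ((r.den : ℤ) * p - r.num * q : ℚ) = d * (r.num - r.den) := by exact_mod_cast h
    push_cast at h1
    apply mul_left_cancel₀ h3
    linear_combination h1 - (q + d : ℚ) * e1
  · intro h
    have h1 : ((r.den : ℤ) * p - r.num * q : ℚ) = d * (r.num - r.den) := by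
      push_cast
      linear_combination (r.den : ℚ) * h + (q + d : ℚ) * e1
    exact_mod_cast h1

theorem goodRatio_of {d : ℤ} (hd : d ≠ 0) {r : ℚ} (hr : PrimeTo d r) (h1 : r ≠ 1)
    (h : Pool.Agent.N735.RT.Gd d r) : GoodRatio Pool.Agent.N735.RT.BR d r := by
  obtain ⟨hr0, hrn, hrd⟩ := hr
  have hn : 0 < r.num := Rat.num_pos.2 hr0
  have hn' : (r.num.toNat : ℤ) = r.num := Int.toNat_of_nonneg hn.le
  have hcop : IsCoprime (r.den : ℤ) r.num := (Rat.isCoprime_num_den r).symm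
  have hset : Pool.Agent.N735.RT.QS d r =
      {q : ℕ | q.Prime ∧ ∃ p : ℕ, p.Prime ∧ (r.den : ℤ) * p - r.num.toNat * q =
        d * (r.num - r.den)} := by
    ext q
    unfold Pool.Agent.N735.RT.QS
    constructor
    · rintro ⟨hq, p, hp, he⟩
      exact ⟨hq, p, hp, (eq_iff hr0 d p q).2 he⟩
    · rintro ⟨hq, p, hp, he⟩
      exact ⟨hq, p, hp, (eq_iff hr0 d p q).1 he⟩
  have hmany := h.1
  rw [hset] at hmany
  refine ⟨hr0, ⟨⟨r.den_pos, by omega, ?_, ?_, ?_, ?_, ?_⟩, ?_, hmany⟩, eq_iff hr0 d⟩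
  · apply mul_ne_zero hd
    rw [sub_ne_zero]
    intro he
    apply h1
    have h2 : (r.num : ℚ) = r.den := by exact_mod_cast he
    have h3 : (r.den : ℚ) ≠ 0 := by exact_mod_cast r.den_pos.ne'
    rw [← Rat.num_div_den r, h2, div_self h3]
  · rw [hn']
    exact hcop
  · apply hrd.mul_right
    have h2 : IsCoprime (r.den : ℤ) (r.num + (r.den : ℤ) * (-1)) :=
      (IsCoprime.add_mul_left_right_iff).2 hcop
    have h3 : r.num - (r.den : ℤ) = r.num + (r.den : ℤ) * (-1) := by ring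
    rw [h3]
    exact h2
  · rw [hn']
    apply hrn.mul_right
    have h2 : IsCoprime r.num (-(r.den : ℤ) + r.num * 1) :=
      (IsCoprime.add_mul_left_right_iff).2 hcop.symm.neg_right
    have h3 : r.num - (r.den : ℤ) = -(r.den : ℤ) + r.num * 1 := by ring
    rw [h3]
    exact h2
  · rintro ⟨h2, h3, h4⟩
    have h5 : Odd (r.den : ℤ) := by exact_mod_cast h2
    have h6 : Odd r.num := by
      have h7 : Odd (r.num.toNat : ℤ) := by exact_mod_cast h3
      rwa [hn'] at h7
    have h8 : Even (r.num - (r.den : ℤ)) := h6.sub_odd h5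
    exact (Int.not_odd_iff_even.2 (h8.mul_left d)) h4
  · apply Set.Infinite.of_image Prod.snd
    refine hmany.infinite.mono ?_
    rintro q ⟨hq, p, hp, hpq⟩
    exact ⟨(p, q), ⟨hp, hq, hpq⟩, rfl⟩

open Classical in
theorem result : ∃ B : ℕ, ∀ d : ℤ, d ≠ 0 →
    (∀ S : Set ℚ, (∀ r ∈ S, PrimeTo d r) → ∃ F : Finset ℚ, F.card ≤ 44 ∧ (∀ s ∈ F, s ∈ S) ∧
      ∀ r ∈ S, r ∉ F → ∃ s ∈ F, GoodRatio B d (r / s) ∧ GoodRatio B d (s / r)) ∧
    (∃ M : Finset ℕ, M.card ≤ 44 ∧ (∀ m ∈ M, 0 < m ∧ IsCoprime (m : ℤ) d) ∧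
      ∀ r : ℚ, PrimeTo d r → ∃ m ∈ M, (m : ℚ) * r = 1 ∨ GoodRatio B d (m * r)) ∧
    ∃ (κ : ℝ) (Y₀ : ℕ), 0 < κ ∧ ∀ a : ℕ, 1 ≤ a → IsCoprime (a : ℤ) d → ∀ Y : ℕ, Y₀ ≤ Y →
      κ * Y ≤ (((Icc 1 Y).filter (fun b : ℕ => IsCoprime (b : ℤ) d ∧
        GoodRatio B d ((b : ℚ) / a))).card : ℝ) := by
  refine ⟨Pool.Agent.N735.RT.BR, fun d hd => ⟨?_, ?_, ?_⟩⟩
  · intro S hS
    obtain ⟨F, hF1, hF2, hF3⟩ := Pool.Agent.N735.RT.cover d hd S hS
    refine ⟨F, hF1, hF2, fun r hr hrF => ?_⟩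
    obtain ⟨s, hs, h⟩ := (hF3 r hr).resolve_left hrF
    have hne : r ≠ s := fun he => hrF (by rw [he]; exact hs)
    have hr1 : PrimeTo d r := hS r hr
    have hs1 : PrimeTo d s := hS s (hF2 s hs)
    have hr0 : r ≠ 0 := hr1.1.ne'
    have hs0 : s ≠ 0 := hs1.1.ne'
    refine ⟨s, hs, goodRatio_of hd ?_ ?_ h, goodRatio_of hd ?_ ?_ ?_⟩
    · have := Pool.Agent.N735.RT.Pos.mul hr1 (Pool.Agent.N735.RT.Pos.inv hs1)
      rwa [← div_eq_mul_inv] at this
    · intro he
      rw [div_eq_one_iff_eq hs0] at he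
      exact hne he
    · have := Pool.Agent.N735.RT.Pos.mul hs1 (Pool.Agent.N735.RT.Pos.inv hr1)
      rwa [← div_eq_mul_inv] at this
    · intro he
      rw [div_eq_one_iff_eq hr0] at he
      exact hne he.symm
    · have := h.inv
      rwa [inv_div] at this
  · obtain ⟨M, -, hM1, hM2, hM3⟩ := Pool.Agent.N735.RT.coverN d hd
    refine ⟨M, hM1, hM2, fun r hr => ?_⟩
    obtain ⟨m, hm, h⟩ := hM3 r hr
    refine ⟨m, hm, ?_⟩
    by_cases h1 : (m : ℚ) * r = 1
    · exact Or.inl h1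
    · right
      refine goodRatio_of hd ?_ h1 (h.resolve_left h1)
      exact Pool.Agent.N735.RT.Pos.mul (Pool.Agent.N735.RT.Pos.natCast (hM2 m hm).1 (hM2 m hm).2) hr
  · obtain ⟨κ, Y₀, hκ, h⟩ := Pool.Agent.N735.RT.dens d hd
    refine ⟨κ, Y₀, hκ, fun a ha hac Y hY => (h a ha hac Y hY).trans ?_⟩
    rw [Nat.cast_le]
    apply card_le_card
    intro b hb
    obtain ⟨h1, h2, h3, h4⟩ := mem_filter.1 hb
    refine mem_filter.2 ⟨h1, h3, goodRatio_of hd ?_ ?_ h4⟩
    · have hb1 := (mem_Icc.1 h1).1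
      have := Pool.Agent.N735.RT.Pos.mul (Pool.Agent.N735.RT.Pos.natCast (by omega) h3)
        (Pool.Agent.N735.RT.Pos.inv (Pool.Agent.N735.RT.Pos.natCast (by omega) hac))
      rwa [← div_eq_mul_inv] at this
    · intro he
      have ha0 : (a : ℚ) ≠ 0 := by
        have : a ≠ 0 := by omega
        exact_mod_cast this
      rw [div_eq_one_iff_eq ha0] at he
      exact h2 (by exact_mod_cast he)

end Pool.Agent.Results.MP_bf63dc_nt.ShiftedPrimeRatios
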